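import Mathlib

/-!
# The omega-values of the generators of interval-generated numerical monoids

Let `Γ = ⟨n, n+1, …, n+k⟩`, `1 ≤ k ≤ n - 1`, and `m = ⌊(n - 2) / k⌋`.  Then `ω(n) = m + 2`, unless
`k ∣ n - 2` and `m + 1 ∤ k - 1`, when `ω(n) = m + 1`; and for `1 ≤ i ≤ k`, `ω(n + i) = m + 3`, unless
`k ∣ n - 2` and `m + 2 ∤ i - 1`, when `ω(n + i) = m + 2`.

The elements of `Γ` are the `t n + σ` with `σ ≤ t k`.  Such an element is not divisible by `n + i`
exactly when (A) `σ < i` and `t k + i < n + σ + 2 k`, or (B) `t k + i < σ + k` and `σ < n + i`.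
-/

set_option autoImplicit false

namespace Pool.Agent.Results.MP_d5f0e7_al.IntervalOmega

/-- The numerical monoid generated by `n, n + 1, …, n + k`. -/
def Γ (n k : ℕ) : AddSubmonoid ℕ := AddSubmonoid.closure (Set.Icc n (n + k))

/-- `x` divides `y` in the monoid `M`: `y - x` is an element of `M`. -/
def Dvd (M : AddSubmonoid ℕ) (x y : ℕ) : Prop := ∃ g ∈ M, y = x + g

/-- Whenever `x` divides `a 1 + ... + a r` with all `a j` in `M`, it divides the sum of at most `N`
of the `a j`. -/
def Bound (M : AddSubmonoid ℕ) (x N : ℕ) : Prop :=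
  ∀ (r : ℕ) (a : Fin r → ℕ), (∀ j, a j ∈ M) → Dvd M x (∑ j, a j) →
    ∃ T : Finset (Fin r), T.card ≤ N ∧ Dvd M x (∑ j ∈ T, a j)

/-- The omega-value: the least natural number with the property `Bound`. -/
noncomputable def omega (M : AddSubmonoid ℕ) (x : ℕ) : ℕ := sInf {N | Bound M x N}

/-- The formula for `ω(n + i)`. -/
def value (n k i : ℕ) : ℕ :=
  if i = 0 then
    if k ∣ n - 2 ∧ ¬ ((n - 2) / k + 1) ∣ k - 1 then (n - 2) / k + 1 else (n - 2) / k + 2
  else
    if k ∣ n - 2 ∧ ¬ ((n - 2) / k + 2) ∣ i - 1 then (n - 2) / k + 2 else (n - 2) / k + 3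

lemma mem_of (n k : ℕ) : ∀ t σ : ℕ, σ ≤ t * k → t * n + σ ∈ Γ n k := by
  intro t
  induction t with
  | zero =>
    intro σ h
    have : σ = 0 := by omega
    subst this
    simp
  | succ t ih =>
    intro σ h
    have hk : σ ≤ t * k + k := by
      have : (t + 1) * k = t * k + k := by ring
      omega
    have h1 : n + min σ k ∈ Γ n k :=
      AddSubmonoid.subset_closure ⟨by omega, by omega⟩
    have h2 := ih (σ - min σ k) (by omega)
    have h3 := add_mem h1 h2
    have h4 : (t + 1) * n + σ = n + min σ k + (t * n + (σ - min σ k)) := by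
      have : (t + 1) * n = t * n + n := by ring
      omega
    rw [h4]
    exact h3

lemma mem_iff (n k x : ℕ) : x ∈ Γ n k ↔ ∃ t σ : ℕ, x = t * n + σ ∧ σ ≤ t * k := by
  constructor
  · intro h
    induction h using AddSubmonoid.closure_induction with
    | mem x hx =>
      obtain ⟨h1, h2⟩ := hx
      exact ⟨1, x - n, by omega, by omega⟩
    | zero => exact ⟨0, 0, by simp, by simp⟩
    | add x y _ _ hx hy =>
      obtain ⟨t, σ, rfl, h1⟩ := hx
      obtain ⟨t', σ', rfl, h2⟩ := hy
      refine ⟨t + t', σ + σ', by ring, ?_⟩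
      have : (t + t') * k = t * k + t' * k := by ring
      omega
  · rintro ⟨t, σ, rfl, h⟩
    exact mem_of n k t σ h

/-- if `t n + σ` is not divisible by `n + i` then (A) or (B) -/
lemma fail {n k i t σ : ℕ} (hk : 1 ≤ k) (hkn : k < n) (hi : i ≤ k) (hσ : σ ≤ t * k)
    (h : ¬ Dvd (Γ n k) (n + i) (t * n + σ)) :
    (σ < i ∧ t * k + i < n + σ + 2 * k) ∨ (t * k + i < σ + k ∧ σ < n + i) := by
  by_contra hcon
  rw [not_or, not_and_or, not_and_or] at hcon
  obtain ⟨hA, hB⟩ := hcon
  apply h
  by_cases h1 : σ < i
  · have hA' : n + σ + 2 * k ≤ t * k + i := by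
      rcases hA with h2 | h2
      · exact absurd h1 h2
      · omega
    have ht : 2 ≤ t := by
      by_contra hcon
      have h3 : t ≤ 1 := by omega
      have := Nat.mul_le_mul_right k h3
      omega
    obtain ⟨s, rfl⟩ : ∃ s, t = s + 2 := ⟨t - 2, by omega⟩
    have e1 : (s + 2) * k = s * k + 2 * k := by ring
    have e2 : (s + 2) * n = s * n + 2 * n := by ring
    exact ⟨s * n + (n + σ - i), mem_of n k s _ (by omega), by omega⟩
  · rcases hB with h2 | h2
    · have ht : 1 ≤ t := by
        rcases Nat.eq_zero_or_pos t with h0 | h0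
        · subst h0
          omega
        · exact h0
      obtain ⟨s, rfl⟩ : ∃ s, t = s + 1 := ⟨t - 1, by omega⟩
      have e1 : (s + 1) * k = s * k + k := by ring
      have e2 : (s + 1) * n = s * n + n := by ring
      exact ⟨s * n + (σ - i), mem_of n k s _ (by omega), by omega⟩
    · exact ⟨t * n + (σ - (n + i)), mem_of n k t _ (by omega), by omega⟩

/-- (A) and (B) exclude divisibility -/
lemma not_dvd {n k i t σ : ℕ} (h : (σ < i ∧ t * k + i < n + σ + 2 * k) ∨
    (t * k + i < σ + k ∧ σ < n + i)) : ¬ Dvd (Γ n k) (n + i) (t * n + σ) := by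
  rintro ⟨g, hg, he⟩
  obtain ⟨u, ρ, rfl, hρ⟩ := (mem_iff n k g).1 hg
  rcases Nat.lt_trichotomy t (u + 1) with h1 | h1 | h1
  · obtain ⟨d, rfl⟩ : ∃ d, u = t + d := ⟨u - t, by omega⟩
    have e : (t + d) * n = t * n + d * n := by ring
    rcases h with ⟨h2, h3⟩ | ⟨h2, h3⟩ <;> omega
  · subst h1
    have e : (u + 1) * n = u * n + n := by ring
    have e2 : (u + 1) * k = u * k + k := by ring
    rcases h with ⟨h2, h3⟩ | ⟨h2, h3⟩ <;> omega
  · obtain ⟨d, rfl⟩ : ∃ d, t = u + d + 2 := ⟨t - u - 2, by omega⟩
    have e : (u + d + 2) * n = u * n + d * n + 2 * n := by ring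
    have e2 : (u + d + 2) * k = u * k + d * k + 2 * k := by ring
    rcases h with ⟨h2, h3⟩ | ⟨h2, h3⟩ <;> omega

lemma Dvd.mono {n k x y z : ℕ} (h : Dvd (Γ n k) x y) (hz : z ∈ Γ n k) : Dvd (Γ n k) x (y + z) := by
  obtain ⟨g, hg, rfl⟩ := h
  exact ⟨g + z, add_mem hg hz, by ring⟩

/-- lower bound from a minimal family -/
lemma lower {n k x M N : ℕ} (a : Fin (M + 1) → ℕ) (ha : ∀ j, a j ∈ Γ n k)
    (htot : Dvd (Γ n k) x (∑ j, a j)) (hdel : ∀ j, ¬ Dvd (Γ n k) x (∑ l ∈ Finset.univ.erase j, a l))
    (hN : Bound (Γ n k) x N) : M + 1 ≤ N := by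
  obtain ⟨T, hT, hd⟩ := hN (M + 1) a ha htot
  by_contra hcon
  have hTu : T ≠ Finset.univ := by
    intro h
    rw [h, Finset.card_univ, Fintype.card_fin] at hT
    omega
  obtain ⟨j, hj⟩ : ∃ j, j ∉ T := by
    by_contra h
    push Not at h
    exact hTu (Finset.eq_univ_iff_forall.2 h)
  apply hdel j
  have hsub : T ⊆ Finset.univ.erase j := by
    intro l hl
    rw [Finset.mem_erase]
    exact ⟨fun h => hj (h ▸ hl), Finset.mem_univ _⟩
  rw [← Finset.sum_sdiff hsub, add_comm]
  exact Dvd.mono hd (sum_mem fun l _ => ha l)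

/-- structure of a minimal family: for a subfamily `T` with the least number of elements -/
lemma minimal_family {n k x r : ℕ} (a : Fin r → ℕ) (h : Dvd (Γ n k) x (∑ j, a j)) :
    ∃ T : Finset (Fin r), Dvd (Γ n k) x (∑ j ∈ T, a j) ∧
      ∀ j ∈ T, ¬ Dvd (Γ n k) x (∑ l ∈ T.erase j, a l) := by
  classical
  have hex : ∃ s : ℕ, ∃ T : Finset (Fin r), T.card = s ∧ Dvd (Γ n k) x (∑ j ∈ T, a j) :=
    ⟨_, Finset.univ, rfl, h⟩
  obtain ⟨T, hT, hd⟩ := Nat.find_spec hex
  refine ⟨T, hd, ?_⟩
  intro j hj hd2
  have := Nat.find_min' hex ⟨T.erase j, rfl, hd2⟩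
  rw [Finset.card_erase_of_mem hj, ← hT] at this
  have : 0 < T.card := Finset.card_pos.2 ⟨j, hj⟩
  omega

/-- the upper bounds -/
lemma upper {n k x L : ℕ}
    (hL : ∀ t σ : ℕ, σ ≤ t * k → ¬ Dvd (Γ n k) x (t * n + σ) → t ≤ L)
    {r : ℕ} (a : Fin r → ℕ) (ha : ∀ j, a j ∈ Γ n k) (T : Finset (Fin r))
    (hd : Dvd (Γ n k) x (∑ j ∈ T, a j)) (hT : ∀ j ∈ T, ¬ Dvd (Γ n k) x (∑ l ∈ T.erase j, a l)) :
    T.card ≤ L + 1 ∧ (T.card = L + 1 → 1 ≤ L → ∃ e : Fin r → ℕ, (∀ j ∈ T, e j ≤ k) ∧
      ∀ j ∈ T, ¬ Dvd (Γ n k) x (L * n + ∑ l ∈ T.erase j, e l)) := by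
  classical
  have hx : ∀ j, ∃ t σ : ℕ, a j = t * n + σ ∧ σ ≤ t * k := fun j => (mem_iff n k _).1 (ha j)
  choose t σ h1 h2 using hx
  have ht : ∀ j ∈ T, 1 ≤ t j := by
    intro j hj
    rcases Nat.eq_zero_or_pos (t j) with h0 | h0
    · exfalso
      apply hT j hj
      have hs : σ j = 0 := by
        have := h2 j
        rw [h0] at this
        omega
      have haj : a j = 0 := by rw [h1 j, h0, hs]; simp
      rw [← Finset.add_sum_erase T a hj, haj, zero_add] at hd
      exact hd
    · exact h0
  have hsum : ∀ U : Finset (Fin r), ∑ l ∈ U, a l = (∑ l ∈ U, t l) * n + ∑ l ∈ U, σ l := by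
    intro U
    rw [Finset.sum_mul, ← Finset.sum_add_distrib]
    exact Finset.sum_congr rfl fun l _ => h1 l
  have hsk : ∀ U : Finset (Fin r), ∑ l ∈ U, σ l ≤ (∑ l ∈ U, t l) * k := by
    intro U
    rw [Finset.sum_mul]
    exact Finset.sum_le_sum fun l _ => h2 l
  have hcard : ∀ j ∈ T, T.card - 1 ≤ ∑ l ∈ T.erase j, t l := by
    intro j hj
    rw [← Finset.card_erase_of_mem hj, Finset.card_eq_sum_ones]
    exact Finset.sum_le_sum fun l hl => ht l (Finset.mem_of_mem_erase hl)
  have hle : ∀ j ∈ T, ∑ l ∈ T.erase j, t l ≤ L := by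
    intro j hj
    apply hL _ _ (hsk (T.erase j))
    rw [← hsum]
    exact hT j hj
  refine ⟨?_, ?_⟩
  · rcases T.eq_empty_or_nonempty with h0 | ⟨j, hj⟩
    · rw [h0]
      simp
    · have := hcard j hj
      have := hle j hj
      omega
  · intro hTc hL1
    have hone : ∀ l ∈ T, t l = 1 := by
      intro l hl
      obtain ⟨j, hj, hjl⟩ : ∃ j ∈ T, j ≠ l := by
        have h3 : 1 < T.card := by omega
        exact Finset.exists_mem_ne h3 l
      have h4 : ∑ l' ∈ T.erase j, t l' ≤ ∑ l' ∈ T.erase j, 1 := by
        rw [← Finset.card_eq_sum_ones, Finset.card_erase_of_mem hj]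
        have := hle j hj
        omega
      by_contra hne
      have h5 : ∑ l' ∈ T.erase j, 1 < ∑ l' ∈ T.erase j, t l' := by
        apply Finset.sum_lt_sum
        · intro l' hl'
          exact ht l' (Finset.mem_of_mem_erase hl')
        · refine ⟨l, Finset.mem_erase.2 ⟨hjl.symm, hl⟩, ?_⟩
          have := ht l hl
          omega
      omega
    refine ⟨σ, ?_, ?_⟩
    · intro j hj
      have := h2 j
      rw [hone j hj] at this
      omega
    · intro j hj
      have h6 := hT j hj
      rw [hsum] at h6
      have h7 : ∑ l ∈ T.erase j, t l = L := by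
        rw [Finset.sum_congr rfl (fun l hl => hone l (Finset.mem_of_mem_erase hl)),
          ← Finset.card_eq_sum_ones, Finset.card_erase_of_mem hj]
        omega
      rw [h7] at h6
      exact h6

/-- `ω` is a minimum whenever a least value is known -/
lemma omega_eq {n k x v : ℕ} (h : IsLeast {N | Bound (Γ n k) x N} v) : omega (Γ n k) x = v :=
  h.csInf_eq

lemma sum_const_erase {r : ℕ} (c : ℕ) (j : Fin (r + 1)) :
    ∑ _l ∈ Finset.univ.erase j, c = r * c := by
  rw [Finset.sum_const, Finset.card_erase_of_mem (Finset.mem_univ j), Finset.card_univ,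
    Fintype.card_fin]
  simp

/-- the balanced family: `c % L` entries `c / L + 1`, the others `c / L` -/
lemma balanced (L c : ℕ) (hL : 0 < L) : ∃ e : Fin (L + 1) → ℕ,
    (∀ j, e j = c / L ∨ (e j = c / L + 1 ∧ ¬ L ∣ c)) ∧
    ∀ j, ∑ l ∈ Finset.univ.erase j, e l + e j = c + c / L := by
  classical
  set e : Fin (L + 1) → ℕ := fun j => c / L + if j.val < c % L then 1 else 0 with he
  have htot : ∑ l, e l = c + c / L := by
    rw [he, Finset.sum_add_distrib, Finset.sum_const, Finset.sum_boole, Finset.card_univ,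
      Fintype.card_fin, smul_eq_mul]
    have h1 : (Finset.univ.filter (fun j : Fin (L + 1) => j.val < c % L)).card = c % L := by
      rw [Fin.card_filter_val_lt]
      have := Nat.mod_lt c hL
      omega
    rw [h1]
    have h2 := Nat.div_add_mod c L
    have h3 : (L + 1) * (c / L) = L * (c / L) + c / L := by ring
    simp only [Nat.cast_id]
    omega
  refine ⟨e, ?_, ?_⟩
  · intro j
    simp only [he]
    split_ifs with h
    · right
      refine ⟨rfl, ?_⟩
      intro hd
      rw [Nat.mod_eq_zero_of_dvd hd] at h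
      omega
    · left
      rfl
  · intro j
    rw [add_comm, Finset.add_sum_erase _ e (Finset.mem_univ j), htot]

theorem main (n k i : ℕ) (hn : 2 ≤ n) (hk : 1 ≤ k) (hkn : k ≤ n - 1) (hi : i ≤ k) :
    IsLeast {N | Bound (Γ n k) (n + i) N} (value n k i) := by
  classical
  have hkn' : k < n := by omega
  obtain ⟨m, hm⟩ : ∃ m, m = (n - 2) / k := ⟨_, rfl⟩
  obtain ⟨ρ, hρ⟩ : ∃ ρ, ρ = (n - 2) % k := ⟨_, rfl⟩
  have hmρ : n = m * k + ρ + 2 := by
    have := Nat.div_add_mod (n - 2) k
    rw [← hm, ← hρ] at this
    have e : k * m = m * k := by ring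
    omega
  have hρk : ρ < k := by
    rw [hρ]
    exact Nat.mod_lt _ (by omega)
  have hdvd : k ∣ n - 2 ↔ ρ = 0 := by
    rw [hρ]
    exact Nat.dvd_iff_mod_eq_zero
  have hmul1 : ∀ t : ℕ, m + 2 ≤ t → m * k + 2 * k ≤ t * k := by
    intro t ht
    have := Nat.mul_le_mul_right k ht
    have e : (m + 2) * k = m * k + 2 * k := by ring
    omega
  have hmul3 : ∀ t : ℕ, m + 3 ≤ t → m * k + 3 * k ≤ t * k := by
    intro t ht
    have := Nat.mul_le_mul_right k ht
    have e : (m + 3) * k = m * k + 3 * k := by ring
    omega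
  rcases Nat.eq_zero_or_pos i with hi0 | hi0
  · -- the generator n
    subst hi0
    have hL : ∀ t σ : ℕ, σ ≤ t * k → ¬ Dvd (Γ n k) (n + 0) (t * n + σ) → t ≤ m + 1 := by
      intro t σ hσ h
      by_contra hcon
      have := hmul1 t (by omega)
      rcases fail hk hkn' (Nat.zero_le k) hσ h with ⟨h1, h2⟩ | ⟨h1, h2⟩ <;> omega
    unfold value
    rw [if_pos rfl, ← hm]
    by_cases hex : k ∣ n - 2 ∧ ¬ (m + 1) ∣ k - 1
    · rw [if_pos hex]
      obtain ⟨hex1, hex2⟩ := hex
      rw [hdvd] at hex1
      have hk2 : 2 ≤ k := by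
        by_contra hcon
        have : k - 1 = 0 := by omega
        rw [this] at hex2
        exact hex2 (dvd_zero _)
      constructor
      · intro r a ha hd
        obtain ⟨T, hT1, hT2⟩ := minimal_family a hd
        obtain ⟨hc, hfam⟩ := upper hL a ha T hT1 hT2
        refine ⟨T, ?_, hT1⟩
        by_contra hcon
        have hTc : T.card = (m + 1) + 1 := by omega
        obtain ⟨e, he1, he2⟩ := hfam hTc (by omega)
        have hsum : ∀ j ∈ T, ∑ l ∈ T.erase j, e l = m * k + 1 := by
          intro j hj
          have hs : ∑ l ∈ T.erase j, e l ≤ (m + 1) * k := by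
            calc ∑ l ∈ T.erase j, e l ≤ ∑ l ∈ T.erase j, k :=
                  Finset.sum_le_sum fun l hl => he1 l (Finset.mem_of_mem_erase hl)
              _ = (m + 1) * k := by
                  rw [Finset.sum_const, Finset.card_erase_of_mem hj, hTc, smul_eq_mul]
                  simp
          have e1 : (m + 1) * k = m * k + k := by ring
          rcases fail hk hkn' (Nat.zero_le k) hs (he2 j hj) with ⟨h1, h2⟩ | ⟨h1, h2⟩ <;> omega
        obtain ⟨j0, hj0⟩ : T.Nonempty := Finset.card_pos.1 (by omega)
        have hall : ∀ j ∈ T, e j = e j0 := by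
          intro j hj
          have h1 := Finset.add_sum_erase T e hj
          have h2 := Finset.add_sum_erase T e hj0
          rw [hsum j hj] at h1
          rw [hsum j0 hj0] at h2
          omega
        have h3 := hsum j0 hj0
        rw [Finset.sum_congr rfl (fun l hl => hall l (Finset.mem_of_mem_erase hl)),
          Finset.sum_const, Finset.card_erase_of_mem hj0, hTc, smul_eq_mul] at h3
        simp only [Nat.add_sub_cancel] at h3
        apply hex2
        have hek := he1 j0 hj0
        refine ⟨k - e j0, ?_⟩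
        rw [Nat.mul_sub, h3]
        have e1 : (m + 1) * k = m * k + k := by ring
        omega
      · intro N hN
        -- the family n + k, ..., n + k
        have h := lower (M := m) (fun _ : Fin (m + 1) => 1 * n + k) (fun _ => mem_of n k 1 k (by omega))
          (by
            rw [Finset.sum_const, Finset.card_univ, Fintype.card_fin, smul_eq_mul]
            refine ⟨(m + 1) * n + ((m + 1) * k - n), mem_of n k _ _ (by omega), ?_⟩
            have e1 : (m + 1) * k = m * k + k := by ring
            have e2 : (m + 1) * (1 * n + k) = (m + 1) * n + (m + 1) * k := by ring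
            omega)
          (by
            intro j
            rw [sum_const_erase]
            have e2 : m * (1 * n + k) = m * n + m * k := by ring
            rw [e2]
            apply not_dvd
            right
            constructor <;> omega) hN
        exact h
    · rw [if_neg hex]
      have hcase : 1 ≤ ρ ∨ (m + 1) ∣ k - 1 := by
        by_contra hcon
        rw [not_or] at hcon
        exact hex ⟨hdvd.2 (by omega), hcon.2⟩
      constructor
      · intro r a ha hd
        obtain ⟨T, hT1, hT2⟩ := minimal_family a hd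
        exact ⟨T, (upper hL a ha T hT1 hT2).1, hT1⟩
      · intro N hN
        obtain ⟨f, hf1, hf2⟩ := balanced (m + 1) (k - 1) (by omega)
        have hfk : ∀ j, f j ≤ k := by
          intro j
          have h1 : (k - 1) / (m + 1) ≤ k - 1 := Nat.div_le_self _ _
          rcases hf1 j with h | ⟨h, -⟩ <;> omega
        have hmem : ∀ j, 1 * n + (k - f j) ∈ Γ n k := fun j => mem_of n k 1 _ (by omega)
        have hsumE : ∀ j, ∑ l ∈ Finset.univ.erase j, (1 * n + (k - f l)) =
            (m + 1) * n + ((m + 1) * k - ∑ l ∈ Finset.univ.erase j, f l) := by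
          intro j
          rw [Finset.sum_add_distrib, sum_const_erase, Finset.sum_tsub_distrib _ (fun l _ => hfk l),
            sum_const_erase, one_mul]
        have hdel : ∀ j, ¬ Dvd (Γ n k) (n + 0) (∑ l ∈ Finset.univ.erase j, (1 * n + (k - f l))) := by
          intro j
          rw [hsumE]
          apply not_dvd
          right
          have e1 : (m + 1) * k = m * k + k := by ring
          have h2 := hf2 j
          rcases hf1 j with h | ⟨h, h3⟩
          · constructor <;> omega
          · have : 1 ≤ ρ := by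
              rcases hcase with h4 | h4
              · exact h4
              · exact absurd h4 h3
            constructor <;> omega
        have htot : Dvd (Γ n k) (n + 0) (∑ j, (1 * n + (k - f j))) := by
          by_contra hcon
          have e : ∑ j : Fin (m + 1 + 1), (1 * n + (k - f j)) =
              (m + 2) * n + ∑ j, (k - f j) := by
            rw [Finset.sum_add_distrib, Finset.sum_const, Finset.card_univ, Fintype.card_fin,
              smul_eq_mul, one_mul]
          rw [e] at hcon
          have := hL (m + 2) _ (by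
            calc ∑ j : Fin (m + 1 + 1), (k - f j) ≤ ∑ _j : Fin (m + 1 + 1), k :=
                  Finset.sum_le_sum fun l _ => Nat.sub_le _ _
              _ = (m + 2) * k := by simp) hcon
          omega
        exact lower (M := m + 1) (fun j => 1 * n + (k - f j)) hmem htot hdel hN
  · -- the generators n + i, i > 0
    have hL : ∀ t σ : ℕ, σ ≤ t * k → ¬ Dvd (Γ n k) (n + i) (t * n + σ) → t ≤ m + 2 := by
      intro t σ hσ h
      by_contra hcon
      have := hmul3 t (by omega)
      rcases fail hk hkn' hi hσ h with ⟨h1, h2⟩ | ⟨h1, h2⟩ <;> omega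
    unfold value
    rw [if_neg (by omega), ← hm]
    by_cases hex : k ∣ n - 2 ∧ ¬ (m + 2) ∣ i - 1
    · rw [if_pos hex]
      obtain ⟨hex1, hex2⟩ := hex
      rw [hdvd] at hex1
      have hi2 : 2 ≤ i := by
        by_contra hcon
        have : i - 1 = 0 := by omega
        rw [this] at hex2
        exact hex2 (dvd_zero _)
      constructor
      · intro r a ha hd
        obtain ⟨T, hT1, hT2⟩ := minimal_family a hd
        obtain ⟨hc, hfam⟩ := upper hL a ha T hT1 hT2
        refine ⟨T, ?_, hT1⟩
        by_contra hcon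
        have hTc : T.card = (m + 2) + 1 := by omega
        obtain ⟨e, he1, he2⟩ := hfam hTc (by omega)
        have hsum : ∀ j ∈ T, ∑ l ∈ T.erase j, e l = i - 1 := by
          intro j hj
          have hs : ∑ l ∈ T.erase j, e l ≤ (m + 2) * k := by
            calc ∑ l ∈ T.erase j, e l ≤ ∑ l ∈ T.erase j, k :=
                  Finset.sum_le_sum fun l hl => he1 l (Finset.mem_of_mem_erase hl)
              _ = (m + 2) * k := by
                  rw [Finset.sum_const, Finset.card_erase_of_mem hj, hTc, smul_eq_mul]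
                  simp
          have e1 : (m + 2) * k = m * k + 2 * k := by ring
          rcases fail hk hkn' hi hs (he2 j hj) with ⟨h1, h2⟩ | ⟨h1, h2⟩ <;> omega
        obtain ⟨j0, hj0⟩ : T.Nonempty := Finset.card_pos.1 (by omega)
        have hall : ∀ j ∈ T, e j = e j0 := by
          intro j hj
          have h1 := Finset.add_sum_erase T e hj
          have h2 := Finset.add_sum_erase T e hj0
          rw [hsum j hj] at h1
          rw [hsum j0 hj0] at h2
          omega
        have h3 := hsum j0 hj0
        rw [Finset.sum_congr rfl (fun l hl => hall l (Finset.mem_of_mem_erase hl)),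
          Finset.sum_const, Finset.card_erase_of_mem hj0, hTc, smul_eq_mul] at h3
        simp only [Nat.add_sub_cancel] at h3
        exact hex2 ⟨e j0, h3.symm⟩
      · intro N hN
        have h := lower (M := m + 1) (fun _ : Fin (m + 1 + 1) => 1 * n + 0)
          (fun _ => mem_of n k 1 0 (by omega))
          (by
            rw [Finset.sum_const, Finset.card_univ, Fintype.card_fin, smul_eq_mul]
            refine ⟨m * n + (n - i), mem_of n k _ _ (by omega), ?_⟩
            have e2 : (m + 1 + 1) * (1 * n + 0) = m * n + 2 * n := by ring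
            omega)
          (by
            intro j
            rw [sum_const_erase]
            have e2 : (m + 1) * (1 * n + 0) = (m + 1) * n + 0 := by ring
            rw [e2]
            apply not_dvd
            left
            have e1 : (m + 1) * k = m * k + k := by ring
            constructor <;> omega) hN
        exact h
    · rw [if_neg hex]
      have hcase : 1 ≤ ρ ∨ (m + 2) ∣ i - 1 := by
        by_contra hcon
        rw [not_or] at hcon
        exact hex ⟨hdvd.2 (by omega), hcon.2⟩
      constructor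
      · intro r a ha hd
        obtain ⟨T, hT1, hT2⟩ := minimal_family a hd
        exact ⟨T, (upper hL a ha T hT1 hT2).1, hT1⟩
      · intro N hN
        obtain ⟨f, hf1, hf2⟩ := balanced (m + 2) (i - 1) (by omega)
        have hfk : ∀ j, f j ≤ k := by
          intro j
          have h1 : (i - 1) / (m + 2) ≤ i - 1 := Nat.div_le_self _ _
          rcases hf1 j with h | ⟨h, -⟩ <;> omega
        have hmem : ∀ j, 1 * n + f j ∈ Γ n k := fun j => mem_of n k 1 _ (by have := hfk j; omega)
        have hsumE : ∀ j, ∑ l ∈ Finset.univ.erase j, (1 * n + f l) =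
            (m + 2) * n + ∑ l ∈ Finset.univ.erase j, f l := by
          intro j
          rw [Finset.sum_add_distrib, sum_const_erase, one_mul]
        have hdel : ∀ j, ¬ Dvd (Γ n k) (n + i) (∑ l ∈ Finset.univ.erase j, (1 * n + f l)) := by
          intro j
          rw [hsumE]
          apply not_dvd
          left
          have e1 : (m + 2) * k = m * k + 2 * k := by ring
          have h2 := hf2 j
          rcases hf1 j with h | ⟨h, h3⟩
          · constructor <;> omega
          · have : 1 ≤ ρ := by
              rcases hcase with h4 | h4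
              · exact h4
              · exact absurd h4 h3
            constructor <;> omega
        have htot : Dvd (Γ n k) (n + i) (∑ j, (1 * n + f j)) := by
          by_contra hcon
          have e : ∑ j : Fin (m + 2 + 1), (1 * n + f j) = (m + 3) * n + ∑ j, f j := by
            rw [Finset.sum_add_distrib, Finset.sum_const, Finset.card_univ, Fintype.card_fin,
              smul_eq_mul, one_mul]
          rw [e] at hcon
          have := hL (m + 3) _ (by
            calc ∑ j : Fin (m + 2 + 1), f j ≤ ∑ _j : Fin (m + 2 + 1), k :=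
                  Finset.sum_le_sum fun l _ => hfk l
              _ = (m + 3) * k := by simp) hcon
          omega
        exact lower (M := m + 2) (fun j => 1 * n + f j) hmem htot hdel hN

/-- **The omega-values of all generators of all interval-generated numerical monoids.**  Let `n ≥ 2`,
`1 ≤ k ≤ n - 1`, `0 ≤ i ≤ k`, `m = ⌊(n - 2) / k⌋`, and let `Γ n k` be the monoid generated by
`n, …, n + k`.  The omega-value of `n + i` (which is a minimum) is
`m + 1` if `i = 0`, `k ∣ n - 2`, `m + 1 ∤ k - 1`; `m + 2` in the other cases with `i = 0`;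
`m + 2` if `i > 0`, `k ∣ n - 2`, `m + 2 ∤ i - 1`; `m + 3` in the other cases with `i > 0`. -/
theorem result (n k i : ℕ) (hn : 2 ≤ n) (hk : 1 ≤ k) (hkn : k ≤ n - 1) (hi : i ≤ k) :
    IsLeast {N | Bound (Γ n k) (n + i) N} (omega (Γ n k) (n + i)) ∧
    omega (Γ n k) (n + i) = value n k i := by
  have h := main n k i hn hk hkn hi
  have h2 := omega_eq h
  exact ⟨h2 ▸ h, h2⟩

end Pool.Agent.Results.MP_d5f0e7_al.IntervalOmega
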